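import Mathlib

set_option autoImplicit false

namespace Pool.Agent.LibSNC53

universe u

/-- The set of vertices at out-distance exactly one from `v` (in a digraph without loops). -/
def outN {V : Type u} (E : V → V → Prop) (v : V) : Set V := {w | E v w}

/-- The set of vertices at out-distance exactly two from `v`. -/
def outN2 {V : Type u} (E : V → V → Prop) (v : V) : Set V :=
  {w | w ≠ v ∧ ¬ E v w ∧ ∃ x, E v x ∧ E x w}

/-- The subdigraph induced on a set `A` of vertices. -/
def ind {V : Type u} (E : V → V → Prop) (A : Set V) : A → A → Prop := fun x y => E x.1 y.1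

theorem transfer {V : Type u} (E : V → V → Prop) (hfin : ∀ v, (outN E v).Finite)
    (X : Set V) (hX : X.Finite) :
    ∃ A : Set V, A.Finite ∧ X ⊆ A ∧ ∀ v : A,
      (outN2 (ind E A) v).ncard + (outN E v.1).ncard ≤
        (outN2 E v.1).ncard + (outN (ind E A) v).ncard := by
  classical
  let nb : V → Finset V := fun v => (hfin v).toFinset
  have hnb : ∀ v w, w ∈ nb v ↔ E v w := by
    intro v w
    simp [nb, outN]
  let f : Finset V → ℕ := fun S => ((S.biUnion nb) \ S).card
  obtain ⟨A, hA, hmin⟩ := (measure f).wf.has_min {S : Finset V | hX.toFinset ⊆ S}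
    ⟨hX.toFinset, by simp⟩
  refine ⟨(A : Set V), A.finite_toSet, ?_, ?_⟩
  · intro x hx
    have : x ∈ hX.toFinset := by simpa using hx
    exact hA this
  · rintro ⟨v, hv⟩
    have hvA : v ∈ A := by simpa using hv
    set T : Finset V := insert v (nb v) with hT
    have h1 : f A ≤ f (T ∪ A) := by
      have := hmin (T ∪ A) (by
        intro x hx
        exact Finset.mem_union_right _ (hA hx))
      exact not_lt.mp (show ¬ (f (T ∪ A) < f A) from this)
    have hsub : ((T ∪ A).biUnion nb) \ (T ∪ A) ⊆
        (((T.biUnion nb) \ T) \ A) ∪ (((A.biUnion nb) \ A) \ T) := by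
      intro w hw
      simp only [Finset.mem_sdiff, Finset.mem_biUnion, Finset.mem_union, not_or] at hw ⊢
      obtain ⟨⟨a, ha, haw⟩, hwT, hwA⟩ := hw
      rcases ha with ha | ha
      · left
        exact ⟨⟨⟨a, ha, haw⟩, hwT⟩, hwA⟩
      · right
        exact ⟨⟨⟨a, ha, haw⟩, hwA⟩, hwT⟩
    have h2 : f (T ∪ A) ≤ (((T.biUnion nb) \ T) \ A).card + (((A.biUnion nb) \ A) \ T).card :=
      (Finset.card_le_card hsub).trans (Finset.card_union_le _ _)
    have hTA : T \ A ⊆ (A.biUnion nb) \ A := by
      intro w hw
      simp only [Finset.mem_sdiff, Finset.mem_biUnion, hT, Finset.mem_insert] at hw ⊢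
      obtain ⟨hw1, hw2⟩ := hw
      rcases hw1 with rfl | hw1
      · exact absurd hvA hw2
      · exact ⟨⟨v, hvA, hw1⟩, hw2⟩
    have h3 : (((A.biUnion nb) \ A) \ T).card + (T \ A).card ≤ f A := by
      have hd : Disjoint (((A.biUnion nb) \ A) \ T) (T \ A) := by
        rw [Finset.disjoint_left]
        intro w hw hw'
        simp only [Finset.mem_sdiff] at hw hw'
        exact hw.2 hw'.1
      rw [← Finset.card_union_of_disjoint hd]
      apply Finset.card_le_card
      apply Finset.union_subset
      · exact Finset.sdiff_subset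
      · exact hTA
    have h4 : (T \ A).card ≤ (((T.biUnion nb) \ T) \ A).card := by omega
    have hTnb : T \ A = nb v \ A := by
      ext w
      simp only [hT, Finset.mem_sdiff, Finset.mem_insert]
      constructor
      · rintro ⟨rfl | h, h'⟩
        · exact absurd hvA h'
        · exact ⟨h, h'⟩
      · rintro ⟨h, h'⟩
        exact ⟨Or.inr h, h'⟩
    have hN2 : outN2 E v = (((T.biUnion nb) \ T : Finset V) : Set V) := by
      ext w
      simp only [outN2, Set.mem_ofPred_eq, Finset.coe_sdiff, Set.mem_sdiff, Finset.mem_coe,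
        Finset.mem_biUnion, hT, Finset.mem_insert, not_or, hnb]
      constructor
      · rintro ⟨hwv, hvw, x, hx, hxw⟩
        exact ⟨⟨x, Or.inr hx, hxw⟩, hwv, hvw⟩
      · rintro ⟨⟨x, hx | hx, hxw⟩, hwv, hvw⟩
        · subst hx
          exact absurd hxw hvw
        · exact ⟨hwv, hvw, x, hx, hxw⟩
    have hN : outN E v = ((nb v : Finset V) : Set V) := by
      ext w
      simp [outN, hnb]
    have hNA : (outN (ind E (A : Set V)) ⟨v, hv⟩).ncard = (nb v ∩ A).card := by
      rw [← Set.ncard_coe_finset, ← Set.ncard_image_of_injective _ Subtype.val_injective]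
      congr 1
      ext w
      simp only [outN, ind, Set.mem_image, Set.mem_ofPred_eq, Subtype.exists, Finset.coe_inter,
        Set.mem_inter_iff, Finset.mem_coe, hnb]
      constructor
      · rintro ⟨a, ha, h, rfl⟩
        exact ⟨h, ha⟩
      · rintro ⟨h, ha⟩
        exact ⟨w, ha, h, rfl⟩
    have hN2A : (outN2 (ind E (A : Set V)) ⟨v, hv⟩).ncard ≤ (((T.biUnion nb) \ T) ∩ A).card := by
      rw [← Set.ncard_coe_finset, ← Set.ncard_image_of_injective _ Subtype.val_injective]
      apply Set.ncard_le_ncard _ (Finset.finite_toSet _)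
      intro w hw
      simp only [outN2, ind, Set.mem_image, Set.mem_ofPred_eq, Subtype.exists] at hw
      obtain ⟨a, ha, ⟨h1, h2, x, hx, hvx, hxa⟩, rfl⟩ := hw
      simp only [Finset.coe_inter, Finset.coe_sdiff, Set.mem_inter_iff, Set.mem_sdiff,
        Finset.mem_coe, Finset.mem_biUnion, hT, Finset.mem_insert, not_or, hnb]
      refine ⟨⟨⟨x, Or.inr hvx, hxa⟩, ?_, h2⟩, ha⟩
      intro h
      apply h1
      exact Subtype.ext h
    have e1 : (outN2 E v).ncard = ((T.biUnion nb) \ T).card := by
      rw [hN2, Set.ncard_coe_finset]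
    have e2 : (outN E v).ncard = (nb v).card := by
      rw [hN, Set.ncard_coe_finset]
    have e3 := Finset.card_inter_add_card_sdiff ((T.biUnion nb) \ T) A
    have e4 := Finset.card_inter_add_card_sdiff (nb v) A
    rw [hTnb] at h4
    simp only [e1, e2, hNA]
    omega

end Pool.Agent.LibSNC53
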