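import Pool.Agent.LibSNC53.Equiv

set_option autoImplicit false

namespace Pool.Agent.LibSNC53

universe u v

theorem arcs_swap {V : Type u} (r : V → V → Prop) [DecidableRel r] (P Q : Finset V) :
    ∑ s ∈ P, (Q.filter (fun x => r s x)).card = ∑ x ∈ Q, (P.filter (fun s => r s x)).card := by
  simpa [Finset.bipartiteAbove, Finset.bipartiteBelow] using
    (Finset.sum_card_bipartiteAbove_eq_sum_card_bipartiteBelow (s := P) (t := Q) r)

theorem arcs_inside {V : Type u} [DecidableEq V] (r : V → V → Prop) [DecidableRel r]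
    (h1 : ∀ x, ¬ r x x) (h2 : ∀ x y, r x y → ¬ r y x) (P : Finset V) :
    2 * ∑ s ∈ P, (P.filter (fun x => r s x)).card + P.card ≤ P.card * P.card := by
  have e1 := arcs_swap r P P
  have e2 : ∀ s ∈ P, (P.filter (fun x => r s x)).card + (P.filter (fun x => r x s)).card + 1
      ≤ P.card := by
    intro s hs
    have hd : Disjoint (P.filter (fun x => r s x)) (P.filter (fun x => r x s)) := by
      rw [Finset.disjoint_left]
      intro x hx hx'
      simp only [Finset.mem_filter] at hx hx'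
      exact h2 _ _ hx.2 hx'.2
    rw [← Finset.card_union_of_disjoint hd]
    have hsub : (P.filter (fun x => r s x)) ∪ (P.filter (fun x => r x s)) ⊆ P.erase s := by
      intro x hx
      simp only [Finset.mem_union, Finset.mem_filter] at hx
      rw [Finset.mem_erase]
      rcases hx with hx | hx
      · exact ⟨fun h => h1 s (h ▸ hx.2), hx.1⟩
      · exact ⟨fun h => h1 s (h ▸ hx.2), hx.1⟩
    have := Finset.card_le_card hsub
    rw [Finset.card_erase_of_mem hs] at this
    have hpos : 0 < P.card := Finset.card_pos.2 ⟨s, hs⟩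
    omega
  have e3 := Finset.sum_le_sum e2
  simp only [Finset.sum_add_distrib, Finset.sum_const, smul_eq_mul] at e3
  rw [← e1] at e3
  omega

theorem arcs_between {V : Type u} [DecidableEq V] (r : V → V → Prop) [DecidableRel r]
    (h2 : ∀ x y, r x y → ¬ r y x) (P Q : Finset V) :
    ∑ s ∈ P, (Q.filter (fun x => r s x)).card + ∑ x ∈ Q, (P.filter (fun s => r x s)).card
      ≤ P.card * Q.card := by
  rw [arcs_swap r Q P, ← Finset.sum_add_distrib]
  have e2 : ∀ s ∈ P, (Q.filter (fun x => r s x)).card + (Q.filter (fun x => r x s)).card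
      ≤ Q.card := by
    intro s _
    have hd : Disjoint (Q.filter (fun x => r s x)) (Q.filter (fun x => r x s)) := by
      rw [Finset.disjoint_left]
      intro x hx hx'
      simp only [Finset.mem_filter] at hx hx'
      exact h2 _ _ hx.2 hx'.2
    rw [← Finset.card_union_of_disjoint hd]
    apply Finset.card_le_card
    intro x hx
    simp only [Finset.mem_union, Finset.mem_filter] at hx
    rcases hx with hx | hx <;> exact hx.1
  have e3 := Finset.sum_le_sum e2
  simpa using e3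

/-- The real inequality at the end of the argument of Chen, Shen and Yuster. -/
theorem real_ineq (γ a b y w : ℝ) (hγ : 2 * γ ^ 3 + γ ^ 2 = 1) (hγ0 : 1 / 2 < γ) (hγ1 : γ < 1)
    (ha : 0 < a) (hb : b < γ * a) (hyb : y ≤ b) (hw : w ≤ γ * y)
    (hy : γ * a < (1 + γ) * y)
    (h : a ^ 2 / 2 + a / 2 - a * b + a * y - y ^ 2 / 2 + y / 2 - y * w ≤ 0) : False := by
  have hy0 : 0 < y := by
    by_contra hcon
    push Not at hcon
    nlinarith
  have h1 : a * b ≤ γ * a ^ 2 := by nlinarith
  have h2 : y * w ≤ γ * y ^ 2 := by nlinarith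
  have h3 : (1 / 2 - γ) * a ^ 2 + a * y - (1 / 2 + γ) * y ^ 2 < 0 := by nlinarith
  have hyγ : y < γ * a := lt_of_le_of_lt hyb hb
  have h4 : 0 < ((1 + γ) * y - γ * a) * (γ * a - y) := by
    apply mul_pos <;> linarith
  -- linear remainder
  have h5 : 0 ≤ (1 + γ) * ((1 / 2 - γ) * a ^ 2 + a * y - (1 / 2 + γ) * y ^ 2)
      - (1 / 2 + γ) * (((1 + γ) * y - γ * a) * (γ * a - y)) := by
    have e : (1 + γ) * ((1 / 2 - γ) * a ^ 2 + a * y - (1 / 2 + γ) * y ^ 2)
      - (1 / 2 + γ) * (((1 + γ) * y - γ * a) * (γ * a - y)) =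
      a * (((1 + γ) * (1 / 2 - γ) + (1 / 2 + γ) * γ ^ 2) * a
        + ((1 + γ) - (1 / 2 + γ) * (γ * (2 + γ))) * y) := by ring
    rw [e]
    apply mul_nonneg ha.le
    -- linear function of y, nonnegative at both ends
    have e1 : γ ^ 3 = (1 - γ ^ 2) / 2 := by linarith
    have c1 : (1 + γ) * (1 / 2 - γ) + (1 / 2 + γ) * γ ^ 2 = 1 - γ / 2 - γ ^ 2 := by
      nlinarith
    have c2 : (1 + γ) - (1 / 2 + γ) * (γ * (2 + γ)) = 1 / 2 - 2 * γ ^ 2 := by
      nlinarith
    rw [c1, c2]
    -- now y is below γ a and the coefficient of y is negative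
    have hneg : 1 / 2 - 2 * γ ^ 2 ≤ 0 := by nlinarith
    have h6 : (1 / 2 - 2 * γ ^ 2) * (γ * a) ≤ (1 / 2 - 2 * γ ^ 2) * y :=
      mul_le_mul_of_nonpos_left hyγ.le hneg
    have h7 : 0 = (1 - γ / 2 - γ ^ 2) * a + (1 / 2 - 2 * γ ^ 2) * (γ * a) := by
      have : (1 - γ / 2 - γ ^ 2) * a + (1 / 2 - 2 * γ ^ 2) * (γ * a) =
        (1 - (2 * γ ^ 3 + γ ^ 2)) * a := by ring
      rw [this, hγ]
      ring
    linarith
  have h8 : 0 < (1 / 2 + γ) * (((1 + γ) * y - γ * a) * (γ * a - y)) := by positivity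
  have h9 : 0 < (1 + γ) * ((1 / 2 - γ) * a ^ 2 + a * y - (1 / 2 + γ) * y ^ 2) := by linarith
  have h10 : 0 < (1 / 2 - γ) * a ^ 2 + a * y - (1 / 2 + γ) * y ^ 2 := by
    by_contra hcon
    push Not at hcon
    nlinarith
  linarith

end Pool.Agent.LibSNC53
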