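import Pool.Agent.LibSNC53.CSY

set_option autoImplicit false

namespace Pool.Agent.LibSNC53

universe u v

theorem csy_step {V : Type u} [Nonempty V] (E : V → V → Prop) (hE : Oriented E)
    (hfin : ∀ v, (outN E v).Finite) (γ : ℝ) (hγ : 2 * γ ^ 3 + γ ^ 2 = 1) (hγ0 : 1 / 2 < γ)
    (hγ1 : γ < 1)
    (IH : ∀ v, (outN E v).Nonempty → Good γ (ind E (outN E v))) : Good γ E := by
  classical
  by_contra hcon
  have hbad : ∀ v, ((outN2 E v).ncard : ℝ) < γ * ((outN E v).ncard : ℝ) := by
    intro v
    by_contra h
    exact hcon ⟨v, not_lt.1 h⟩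
  let nb : V → Finset V := fun v => (hfin v).toFinset
  have hnb : ∀ v w, w ∈ nb v ↔ E v w := by
    intro v w
    simp [nb, outN]
  have hNcard : ∀ v, (outN E v).ncard = (nb v).card := by
    intro v
    have : outN E v = ((nb v : Finset V) : Set V) := by
      ext w
      simp [outN, hnb]
    rw [this, Set.ncard_coe_finset]
  let nn : V → Finset V := fun v => ((nb v).biUnion nb \ nb v) \ {v}
  have hnn : ∀ v w, w ∈ nn v ↔ (w ≠ v ∧ ¬ E v w ∧ ∃ x, E v x ∧ E x w) := by
    intro v w
    simp only [nn, Finset.mem_sdiff, Finset.mem_biUnion, hnb, Finset.mem_singleton]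
    tauto
  have hN2card : ∀ v, (outN2 E v).ncard = (nn v).card := by
    intro v
    have : outN2 E v = ((nn v : Finset V) : Set V) := by
      ext w
      simp only [outN2, Set.mem_ofPred_eq, Finset.mem_coe, hnn]
    rw [this, Set.ncard_coe_finset]
  simp only [hNcard, hN2card] at hbad
  have hpos : ∀ v, 0 < (nb v).card := by
    intro v
    by_contra h
    have h0 : (nb v).card = 0 := by omega
    have := hbad v
    rw [h0] at this
    have h' : (0 : ℝ) ≤ ((nn v).card : ℝ) := by positivity
    simp at this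
    linarith
  -- vertex of minimum out-degree
  obtain ⟨v, -, hmin'⟩ := (measure (fun v => (nb v).card)).wf.has_min (Set.univ : Set V)
    ⟨Classical.arbitrary V, trivial⟩
  have hmin : ∀ x, (nb v).card ≤ (nb x).card := by
    intro x
    exact not_lt.mp (show ¬ ((nb x).card < (nb v).card) from hmin' x trivial)
  set A : Finset V := nb v with hA
  set B : Finset V := nn v with hB
  have hne : (outN E v).Nonempty := by
    obtain ⟨w, hw⟩ := Finset.card_pos.1 (hpos v)
    exact ⟨w, (hnb v w).1 hw⟩
  obtain ⟨⟨x, hxA'⟩, hx⟩ := IH v hne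
  have hxA : x ∈ A := (hnb v x).2 hxA'
  -- X, Z, Y
  set X : Finset V := A.filter (fun s => E x s) with hX
  set Z : Finset V := A.filter (fun s => s ≠ x ∧ ¬ E x s ∧ ∃ t ∈ A, E x t ∧ E t s) with hZ
  set Y : Finset V := nb x \ A with hY
  have hXc : (outN (ind E (outN E v)) ⟨x, hxA'⟩).ncard = X.card := by
    rw [← Set.ncard_coe_finset, ← Set.ncard_image_of_injective _ Subtype.val_injective]
    congr 1
    ext w
    simp only [outN, ind, Set.mem_image, Set.mem_ofPred_eq, Subtype.exists, hX, Finset.coe_filter,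
      hA, hnb]
    constructor
    · rintro ⟨a, ha, h, rfl⟩
      exact ⟨ha, h⟩
    · rintro ⟨h, ha⟩
      exact ⟨w, h, ha, rfl⟩
  have hZc : (outN2 (ind E (outN E v)) ⟨x, hxA'⟩).ncard = Z.card := by
    rw [← Set.ncard_coe_finset, ← Set.ncard_image_of_injective _ Subtype.val_injective]
    congr 1
    ext w
    simp only [outN2, outN, ind, Set.mem_image, Set.mem_ofPred_eq, Subtype.exists, hZ,
      Finset.coe_filter, hA, hnb]
    constructor
    · rintro ⟨a, ha, ⟨h1, h2, t, ht, h3, h4⟩, rfl⟩
      refine ⟨ha, ?_, h2, t, ht, h3, h4⟩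
      intro h
      exact h1 (Subtype.ext h)
    · rintro ⟨ha, h1, h2, t, ht, h3, h4⟩
      refine ⟨w, ha, ⟨?_, h2, t, ht, h3, h4⟩, rfl⟩
      intro h
      exact h1 (congrArg Subtype.val h)
  rw [hXc, hZc] at hx
  have hXsub : X ⊆ A := Finset.filter_subset _ _
  have hZsub : Z ⊆ A := Finset.filter_subset _ _
  have hXZ : Disjoint X Z := by
    rw [Finset.disjoint_left]
    intro s hs hs'
    simp only [hX, hZ, Finset.mem_filter] at hs hs'
    exact hs'.2.2.1 hs.2
  have hXZcard : X.card + Z.card + 1 ≤ A.card := by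
    rw [← Finset.card_union_of_disjoint hXZ]
    have hsub : X ∪ Z ⊆ A.erase x := by
      intro s hs
      rw [Finset.mem_erase]
      rcases Finset.mem_union.1 hs with h | h
      · refine ⟨?_, hXsub h⟩
        rintro rfl
        simp only [hX, Finset.mem_filter] at h
        exact hE.1 _ h.2
      · refine ⟨?_, hZsub h⟩
        rintro rfl
        simp only [hZ, Finset.mem_filter] at h
        exact h.2.1 rfl
    have h1 := Finset.card_le_card hsub
    rw [Finset.card_erase_of_mem hxA] at h1
    have h2 : 0 < A.card := Finset.card_pos.2 ⟨x, hxA⟩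
    omega
  -- neighbours of members of A lie in A or B
  have hAB : ∀ s ∈ A, nb s ⊆ A ∪ B := by
    intro s hs t ht
    have hs' : E v s := (hnb v s).1 hs
    have ht' : E s t := (hnb s t).1 ht
    rw [Finset.mem_union]
    by_cases h : E v t
    · left
      exact (hnb v t).2 h
    · right
      rw [hB, hnn]
      refine ⟨?_, h, s, hs', ht'⟩
      rintro rfl
      exact hE.2 _ _ hs' ht'
  have hYB : Y ⊆ B := by
    intro s hs
    rw [hY, Finset.mem_sdiff] at hs
    rcases Finset.mem_union.1 (hAB x hxA hs.1) with h | h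
    · exact absurd h hs.2
    · exact h
  have hdAB : Disjoint A B := by
    rw [Finset.disjoint_left]
    intro s hs hs'
    rw [hB, hnn] at hs'
    exact hs'.2.1 ((hnb v s).1 hs)
  have hdAY : Disjoint A Y := Finset.disjoint_of_subset_right hYB hdAB
  have hxcard : (nb x).card = X.card + Y.card := by
    have h1 : X = nb x ∩ A := by
      ext s
      simp only [hX, Finset.mem_filter, Finset.mem_inter, hnb]
      tauto
    rw [h1, hY]
    exact (Finset.card_inter_add_card_sdiff _ _).symm
  -- W
  set W : Finset V := (Y.biUnion nb \ A) \ Y with hW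
  have hZW : Disjoint Z W := by
    rw [Finset.disjoint_left]
    intro s hs hs'
    simp only [hW, Finset.mem_sdiff] at hs'
    exact hs'.1.2 (hZsub hs)
  have hZWsub : Z ∪ W ⊆ nn x := by
    intro s hs
    rw [hnn]
    rcases Finset.mem_union.1 hs with h | h
    · simp only [hZ, Finset.mem_filter] at h
      obtain ⟨_, h1, h2, t, _, h3, h4⟩ := h
      exact ⟨h1, h2, t, h3, h4⟩
    · simp only [hW, Finset.mem_sdiff, Finset.mem_biUnion] at h
      obtain ⟨⟨⟨t, htY, hts⟩, hsA⟩, hsY⟩ := h
      refine ⟨?_, ?_, t, ?_, ?_⟩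
      · rintro rfl
        exact hsA hxA
      · intro hxs
        apply hsY
        rw [hY, Finset.mem_sdiff]
        exact ⟨(hnb x s).2 hxs, hsA⟩
      · rw [hY, Finset.mem_sdiff] at htY
        exact (hnb x t).1 htY.1
      · exact (hnb t s).1 hts
  have hZWcard : Z.card + W.card ≤ (nn x).card := by
    rw [← Finset.card_union_of_disjoint hZW]
    exact Finset.card_le_card hZWsub
  -- arcs out of Y
  have hYsum : Y.card * A.card ≤ ∑ s ∈ Y, (A.filter (fun t => E s t)).card +
      ∑ s ∈ Y, (Y.filter (fun t => E s t)).card + Y.card * W.card := by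
    have h1 : ∀ s ∈ Y, A.card ≤ (A.filter (fun t => E s t)).card +
        (Y.filter (fun t => E s t)).card + W.card := by
      intro s hs
      have h2 : nb s ⊆ (A.filter (fun t => E s t)) ∪ (Y.filter (fun t => E s t)) ∪ W := by
        intro t ht
        have ht' : E s t := (hnb s t).1 ht
        simp only [Finset.mem_union, Finset.mem_filter, hW, Finset.mem_sdiff, Finset.mem_biUnion]
        by_cases h3 : t ∈ A
        · left; left; exact ⟨h3, ht'⟩
        · by_cases h4 : t ∈ Y
          · left; right; exact ⟨h4, ht'⟩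
          · right; exact ⟨⟨⟨s, hs, ht⟩, h3⟩, h4⟩
      have h3 := Finset.card_le_card h2
      have h4 := Finset.card_union_le ((A.filter (fun t => E s t)) ∪ (Y.filter (fun t => E s t))) W
      have h5 := Finset.card_union_le (A.filter (fun t => E s t)) (Y.filter (fun t => E s t))
      have h6 := hmin s
      omega
    have h2 := Finset.sum_le_sum h1
    simpa [Finset.sum_add_distrib, Finset.sum_const, smul_eq_mul] using h2
  -- arcs out of A
  have hBY : (B \ Y).card + Y.card = B.card := Finset.card_sdiff_add_card_eq_card hYB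
  have hAsum : A.card * A.card ≤ ∑ s ∈ A, (A.filter (fun t => E s t)).card +
      ∑ s ∈ A, (Y.filter (fun t => E s t)).card + A.card * (B \ Y).card := by
    have h1 : ∀ s ∈ A, A.card ≤ (A.filter (fun t => E s t)).card +
        (Y.filter (fun t => E s t)).card + (B \ Y).card := by
      intro s hs
      have h2 : nb s ⊆ (A.filter (fun t => E s t)) ∪ (Y.filter (fun t => E s t)) ∪ (B \ Y) := by
        intro t ht
        have ht' : E s t := (hnb s t).1 ht
        simp only [Finset.mem_union, Finset.mem_filter, Finset.mem_sdiff]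
        rcases Finset.mem_union.1 (hAB s hs ht) with h3 | h3
        · left; left; exact ⟨h3, ht'⟩
        · by_cases h4 : t ∈ Y
          · left; right; exact ⟨h4, ht'⟩
          · right; exact ⟨h3, h4⟩
      have h3 := Finset.card_le_card h2
      have h4 := Finset.card_union_le ((A.filter (fun t => E s t)) ∪ (Y.filter (fun t => E s t)))
        (B \ Y)
      have h5 := Finset.card_union_le (A.filter (fun t => E s t)) (Y.filter (fun t => E s t))
      have h6 := hmin s
      omega
    have h2 := Finset.sum_le_sum h1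
    simpa [Finset.sum_add_distrib, Finset.sum_const, smul_eq_mul] using h2
  have hAin := arcs_inside E hE.1 hE.2 A
  have hYin := arcs_inside E hE.1 hE.2 Y
  have hbet := arcs_between E hE.2 A Y
  have hswap := arcs_swap E A Y
  -- pass to reals
  have hbadv := hbad v
  have hbadx := hbad x
  rw [← hA, ← hB] at hbadv
  rw [hxcard] at hbadx
  have hyB := Finset.card_le_card hYB
  have hxmin := hmin x
  rw [hxcard] at hxmin
  set a := A.card with ha
  set b := B.card with hb
  set y := Y.card with hy
  set w := W.card with hw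
  set p := X.card with hp
  set z := Z.card with hz
  set c := (B \ Y).card with hc
  set sYA := ∑ s ∈ Y, (A.filter (fun t => E s t)).card with hsYA
  set sYY := ∑ s ∈ Y, (Y.filter (fun t => E s t)).card with hsYY
  set sAA := ∑ s ∈ A, (A.filter (fun t => E s t)).card with hsAA
  set sAY := ∑ s ∈ A, (Y.filter (fun t => E s t)).card with hsAY
  have hbet' : sAY + sYA ≤ a * y := hbet
  have ha0 : 0 < a := hpos v
  have r1 : (p : ℝ) + z + 1 ≤ a := by exact_mod_cast hXZcard
  have r2 : (z : ℝ) + w ≤ ((nn x).card : ℝ) := by exact_mod_cast hZWcard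
  have r3 : (y : ℝ) * a ≤ sYA + sYY + y * w := by exact_mod_cast hYsum
  have r4 : (a : ℝ) * a ≤ sAA + sAY + a * c := by exact_mod_cast hAsum
  have r5 : 2 * (sAA : ℝ) + a ≤ a * a := by exact_mod_cast hAin
  have r6 : 2 * (sYY : ℝ) + y ≤ y * y := by exact_mod_cast hYin
  have r7 : (sAY : ℝ) + sYA ≤ a * y := by exact_mod_cast hbet'
  have r8 : (c : ℝ) + y = b := by exact_mod_cast hBY
  have r9 : (y : ℝ) ≤ b := by exact_mod_cast hyB
  have r10 : (a : ℝ) ≤ p + y := by exact_mod_cast hxmin
  have r11 : (0 : ℝ) < a := by exact_mod_cast ha0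
  push_cast at hbadx
  have hc' : (c : ℝ) = b - y := by linarith
  rw [hc'] at r4
  have hw' : (w : ℝ) ≤ γ * y := by nlinarith
  have hy' : γ * a < (1 + γ) * y := by nlinarith
  exact real_ineq γ a b y w hγ hγ0 hγ1 r11 hbadv r9 hw' hy' (by nlinarith)

theorem root_bounds (γ : ℝ) (hγ : 2 * γ ^ 3 + γ ^ 2 = 1) : 1 / 2 < γ ∧ γ < 1 := by
  constructor
  · by_contra h
    push Not at h
    nlinarith [sq_nonneg γ, sq_nonneg (γ - 1 / 2), sq_nonneg (γ + 1 / 2), sq_nonneg (2 * γ + 1)]
  · by_contra h
    push Not at h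
    nlinarith [sq_nonneg γ, sq_nonneg (γ - 1)]

theorem csy_finite (γ : ℝ) (hγ : 2 * γ ^ 3 + γ ^ 2 = 1) :
    ∀ n : ℕ, ∀ (V : Type u) [Finite V] [Nonempty V] (E : V → V → Prop), Oriented E →
      Nat.card V ≤ n → Good γ E := by
  obtain ⟨hγ0, hγ1⟩ := root_bounds γ hγ
  intro n
  induction n with
  | zero =>
    intro V _ _ E hE hn
    have := Nat.card_pos (α := V)
    omega
  | succ n ih =>
    intro V _ _ E hE hn
    apply csy_step E hE (fun v => Set.toFinite _) γ hγ hγ0 hγ1
    intro v hv
    have : Nonempty (outN E v) := hv.to_subtype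
    apply ih _ _ (oriented_comap _ E hE)
    have h1 : Nat.card (outN E v) < Nat.card V := by
      rw [Nat.card_coe_set_eq, ← Set.ncard_univ]
      apply Set.ncard_lt_ncard _ (Set.toFinite _)
      rw [Set.ssubset_univ_iff]
      intro h
      have : v ∈ outN E v := by rw [h]; trivial
      exact hE.1 v this
    omega

end Pool.Agent.LibSNC53
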