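import Pool.Agent.LibSNC53.Basic

set_option autoImplicit false

namespace Pool.Agent.LibSNC53

universe u v

/-- A digraph is oriented when it has no loops and no digons. -/
def Oriented {V : Type u} (E : V → V → Prop) : Prop :=
  (∀ x, ¬ E x x) ∧ ∀ x y, E x y → ¬ E y x

theorem ncard_outN_equiv {V : Type u} {W : Type v} (e : W ≃ V) (E : V → V → Prop) (w : W) :
    (outN (fun x y => E (e x) (e y)) w).ncard = (outN E (e w)).ncard := by
  rw [← Set.ncard_image_of_injective _ e.injective]
  congr 1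
  ext x
  simp only [outN, Set.mem_image, Set.mem_ofPred_eq]
  constructor
  · rintro ⟨y, hy, rfl⟩
    exact hy
  · intro hx
    exact ⟨e.symm x, by simpa using hx, by simp⟩

theorem ncard_outN2_equiv {V : Type u} {W : Type v} (e : W ≃ V) (E : V → V → Prop) (w : W) :
    (outN2 (fun x y => E (e x) (e y)) w).ncard = (outN2 E (e w)).ncard := by
  rw [← Set.ncard_image_of_injective _ e.injective]
  congr 1
  ext x
  simp only [outN2, Set.mem_image, Set.mem_ofPred_eq]
  constructor
  · rintro ⟨y, ⟨h1, h2, z, h3, h4⟩, rfl⟩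
    exact ⟨fun h => h1 (e.injective h), h2, e z, h3, h4⟩
  · rintro ⟨h1, h2, z, h3, h4⟩
    refine ⟨e.symm x, ⟨?_, ?_, e.symm z, ?_, ?_⟩, by simp⟩
    · intro h
      apply h1
      rw [← h]
      simp
    · simpa using h2
    · simpa using h3
    · simpa using h4

/-- The conclusion of the second neighbourhood conjecture with constant `γ` for one digraph. -/
def Good (γ : ℝ) {V : Type u} (E : V → V → Prop) : Prop :=
  ∃ v, γ * ((outN E v).ncard : ℝ) ≤ ((outN2 E v).ncard : ℝ)

theorem good_of_equiv {γ : ℝ} {V : Type u} {W : Type v} (e : W ≃ V) (E : V → V → Prop)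
    (h : Good γ (fun x y => E (e x) (e y))) : Good γ E := by
  obtain ⟨w, hw⟩ := h
  refine ⟨e w, ?_⟩
  rwa [ncard_outN_equiv, ncard_outN2_equiv] at hw

theorem oriented_comap {V : Type u} {W : Type v} (f : W → V) (E : V → V → Prop)
    (h : Oriented E) : Oriented (fun x y => E (f x) (f y)) :=
  ⟨fun x => h.1 (f x), fun x y => h.2 (f x) (f y)⟩

theorem good_of_ind {γ : ℝ} (hγ : γ ≤ 1) {V : Type u} (E : V → V → Prop)
    (hfin : ∀ v, (outN E v).Finite) (A : Set V)
    (hA : ∀ v : A, (outN2 (ind E A) v).ncard + (outN E v.1).ncard ≤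
        (outN2 E v.1).ncard + (outN (ind E A) v).ncard)
    (hg : Good γ (ind E A)) : Good γ E := by
  obtain ⟨v, hv⟩ := hg
  refine ⟨v.1, ?_⟩
  have h1 := hA v
  have h2 : (outN (ind E A) v).ncard ≤ (outN E v.1).ncard := by
    rw [← Set.ncard_image_of_injective _ Subtype.val_injective]
    apply Set.ncard_le_ncard _ (hfin _)
    rintro w ⟨x, hx, rfl⟩
    exact hx
  have h1' : ((outN2 (ind E A) v).ncard : ℝ) + ((outN E v.1).ncard : ℝ) ≤
        ((outN2 E v.1).ncard : ℝ) + ((outN (ind E A) v).ncard : ℝ) := by exact_mod_cast h1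
  have h2' : ((outN (ind E A) v).ncard : ℝ) ≤ ((outN E v.1).ncard : ℝ) := by exact_mod_cast h2
  nlinarith

theorem no_good_cycle {γ : ℝ} (hγ : 1 < γ) :
    ¬ Good γ (fun x y : ZMod 3 => y = x + 1) := by
  rintro ⟨v, hv⟩
  have h1 : outN (fun x y : ZMod 3 => y = x + 1) v = {v + 1} := by
    ext w
    simp [outN]
  have h2 : outN2 (fun x y : ZMod 3 => y = x + 1) v = {v + 2} := by
    ext w
    simp only [outN2, Set.mem_ofPred_eq, Set.mem_singleton_iff, exists_eq_left]
    have key : ∀ v w : ZMod 3, (w ≠ v ∧ ¬ w = v + 1 ∧ w = v + 1 + 1) ↔ w = v + 2 := by decide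
    exact key v w
  rw [h1, h2] at hv
  simp only [Set.ncard_singleton] at hv
  norm_num at hv
  linarith

theorem oriented_cycle : Oriented (fun x y : ZMod 3 => y = x + 1) := by
  constructor
  · decide
  · decide

end Pool.Agent.LibSNC53
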