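import Pool.Agent.LibSNC53.Equiv

set_option autoImplicit false

namespace Pool.Agent.LibSNC53

universe u v

open Classical in
/-- Number of forward arcs of an ordering. -/
noncomputable def fwd {V : Type u} (E : V → V → Prop) : List V → ℕ
  | [] => 0
  | x :: L => L.countP (fun y => decide (E x y)) + fwd E L

open Classical in
/-- Number of arcs from the first list to the second list. -/
noncomputable def cross {V : Type u} (E : V → V → Prop) : List V → List V → ℕ
  | [], _ => 0
  | x :: L, M => M.countP (fun y => decide (E x y)) + cross E L M

theorem fwd_append {V : Type u} (E : V → V → Prop) (L M : List V) :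
    fwd E (L ++ M) = fwd E L + fwd E M + cross E L M := by
  induction L with
  | nil => simp [fwd, cross]
  | cons x L ih =>
    simp only [List.cons_append, fwd, cross, List.countP_append, ih]
    omega

theorem cross_append_left {V : Type u} (E : V → V → Prop) (L L' M : List V) :
    cross E (L ++ L') M = cross E L M + cross E L' M := by
  induction L with
  | nil => simp [cross]
  | cons x L ih =>
    simp only [List.cons_append, cross, ih]
    omega

theorem cross_append_right {V : Type u} (E : V → V → Prop) (L M M' : List V) :
    cross E L (M ++ M') = cross E L M + cross E L M' := by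
  induction L with
  | nil => simp [cross]
  | cons x L ih =>
    simp only [cross, ih, List.countP_append]
    omega

open Classical in
theorem cross_singleton_left {V : Type u} (E : V → V → Prop) (x : V) (M : List V) :
    cross E [x] M = M.countP (fun y => decide (E x y)) := by
  simp [cross]

open Classical in
theorem cross_singleton_right {V : Type u} (E : V → V → Prop) (x : V) (L : List V) :
    cross E L [x] = L.countP (fun y => decide (E y x)) := by
  induction L with
  | nil => simp [cross]
  | cons y L ih =>
    simp only [cross, ih, List.countP_cons, List.countP_nil]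
    omega

open Classical in
/-- The feedback property of a local median order. -/
def Feedback {V : Type u} (E : V → V → Prop) (L : List V) : Prop :=
  ∀ P Q R : List V, ∀ x : V, L = P ++ Q ++ x :: R →
    Q.countP (fun y => decide (E x y)) ≤ Q.countP (fun y => decide (E y x))

theorem feedback_of_max {V : Type u} (E : V → V → Prop) (L : List V)
    (h : ∀ L' : List V, L'.Perm L → fwd E L' ≤ fwd E L) : Feedback E L := by
  classical
  intro P Q R x hL
  have hperm : (P ++ x :: (Q ++ R)).Perm L := by
    subst hL
    rw [List.append_assoc]
    exact List.Perm.append_left P (List.perm_middle).symm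
  have h1 := h _ hperm
  have e1 : P ++ x :: (Q ++ R) = P ++ ([x] ++ (Q ++ R)) := by simp
  have e2 : L = P ++ (Q ++ ([x] ++ R)) := by rw [hL]; simp
  rw [e1, e2] at h1
  simp only [fwd_append, cross_append_right, cross_singleton_left,
    cross_singleton_right] at h1
  have e3 := cross_singleton_right E x Q
  omega

theorem exists_feedback {V : Type u} (E : V → V → Prop) (L0 : List V) :
    ∃ L : List V, L.Perm L0 ∧ Feedback E L := by
  classical
  obtain ⟨L, hL, hmax⟩ := Finset.exists_max_image L0.permutations.toFinset (fwd E)
    ⟨L0, by simp [List.mem_permutations]⟩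
  simp only [List.mem_toFinset, List.mem_permutations] at hL hmax
  exact ⟨L, hL, feedback_of_max E L (fun L' hL' => hmax L' (hL'.trans hL))⟩

theorem Feedback.suffix {V : Type u} {E : V → V → Prop} {P L : List V}
    (h : Feedback E (P ++ L)) : Feedback E L := by
  intro P' Q R x hL
  exact h (P ++ P') Q R x (by rw [hL]; simp)

/-- splitting a list at the first element with a given property -/
theorem exists_first {V : Type u} (p : V → Prop) (L : List V) :
    (∀ x ∈ L, ¬ p x) ∨ ∃ P b R, L = P ++ b :: R ∧ p b ∧ ∀ x ∈ P, ¬ p x := by
  induction L with
  | nil => left; simp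
  | cons x L ih =>
    by_cases hx : p x
    · right
      exact ⟨[], x, L, by simp, hx, by simp⟩
    · rcases ih with ih | ⟨P, b, R, h1, h2, h3⟩
      · left
        intro y hy
        rcases List.mem_cons.1 hy with rfl | hy
        · exact hx
        · exact ih y hy
      · right
        refine ⟨x :: P, b, R, by simp [h1], h2, ?_⟩
        intro y hy
        rcases List.mem_cons.1 hy with rfl | hy
        · exact hx
        · exact h3 y hy

open Classical in
theorem havet_thomasse {V : Type u} (E : V → V → Prop) (hE : Oriented E)
    (htot : ∀ x y, x ≠ y → E x y ∨ E y x) (v : V) :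
    ∀ n : ℕ, ∀ M : List V, M.length ≤ n → v ∉ M → M.Nodup → Feedback E (M ++ [v]) →
      M.countP (fun y => decide (E v y)) ≤
        M.countP (fun u => decide (E u v ∧ ∃ y ∈ M, E v y ∧ E y u)) := by
  intro n
  induction n with
  | zero =>
    intro M hM _ _ _
    have : M = [] := List.eq_nil_of_length_eq_zero (Nat.le_zero.1 hM)
    subst this
    simp
  | succ n ih =>
    intro M hM hv hnd hF
    rcases exists_first (fun b => E b v ∧ ¬ ∃ y ∈ M, E v y ∧ E y b) M with hall | ⟨P, b, R, hMeq, ⟨hbv, hb⟩, hP⟩
    · -- no bad vertex
      have h1 := hF [] M [] v (by simp)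
      refine h1.trans ?_
      apply List.countP_mono_left
      intro x hx hxv
      have hxv' : E x v := of_decide_eq_true hxv
      apply decide_eq_true
      refine ⟨hxv', ?_⟩
      by_contra hcon
      exact hall x hx ⟨hxv', hcon⟩
    · have hvb : ¬ E v b := fun h => hE.2 _ _ h hbv
      have hlen : R.length ≤ n := by
        have : M.length = P.length + (R.length + 1) := by
          rw [hMeq, List.length_append, List.length_cons]
        omega
      have hvR : v ∉ R := by
        intro h
        apply hv
        rw [hMeq]
        simp [h]
      have hvP : v ∉ P := by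
        intro h
        apply hv
        rw [hMeq]
        simp [h]
      have hndR : R.Nodup := by
        rw [hMeq] at hnd
        exact (List.nodup_cons.1 (List.nodup_append.1 hnd).2.1).2
      have hbP : b ∉ P := by
        rw [hMeq] at hnd
        intro h
        exact (List.nodup_append.1 hnd).2.2 b h b (by simp) rfl
      have hFR : Feedback E (R ++ [v]) := by
        have : M ++ [v] = (P ++ [b]) ++ (R ++ [v]) := by rw [hMeq]; simp
        rw [this] at hF
        exact hF.suffix
      have ihR := ih R hlen hvR hndR hFR
      have c1 : P.countP (fun y => decide (E v y)) ≤ P.countP (fun y => decide (E b y)) := by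
        apply List.countP_mono_left
        intro y hy hvy
        have hvy' : E v y := of_decide_eq_true hvy
        apply decide_eq_true
        have hyM : y ∈ M := by rw [hMeq]; simp [hy]
        have hyb : ¬ E y b := fun h => hb ⟨y, hyM, hvy', h⟩
        have hne : y ≠ b := fun h => hbP (h ▸ hy)
        rcases htot y b hne with h | h
        · exact absurd h hyb
        · exact h
      have c2 : P.countP (fun y => decide (E b y)) ≤ P.countP (fun y => decide (E y b)) :=
        hF [] P (R ++ [v]) b (by rw [hMeq]; simp)
      have c3 : P.countP (fun y => decide (E y b)) ≤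
          P.countP (fun u => decide (E u v ∧ ∃ y ∈ M, E v y ∧ E y u)) := by
        apply List.countP_mono_left
        intro y hy hyb
        have hyb' : E y b := of_decide_eq_true hyb
        apply decide_eq_true
        have hyM : y ∈ M := by rw [hMeq]; simp [hy]
        have hvy : ¬ E v y := fun h => hb ⟨y, hyM, h, hyb'⟩
        have hne : v ≠ y := fun h => hvP (h ▸ hy)
        have hyv : E y v := by
          rcases htot v y hne with h | h
          · exact absurd h hvy
          · exact h
        refine ⟨hyv, ?_⟩
        by_contra hcon
        exact hP y hy ⟨hyv, hcon⟩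
      have c4 : R.countP (fun u => decide (E u v ∧ ∃ y ∈ R, E v y ∧ E y u)) ≤
          R.countP (fun u => decide (E u v ∧ ∃ y ∈ M, E v y ∧ E y u)) := by
        apply List.countP_mono_left
        intro u _ hu
        have hu' := of_decide_eq_true hu
        apply decide_eq_true
        obtain ⟨h1, y, hy, h2⟩ := hu'
        exact ⟨h1, y, by rw [hMeq]; simp [hy], h2⟩
      have d1 : M.countP (fun y => decide (E v y)) =
          P.countP (fun y => decide (E v y)) + R.countP (fun y => decide (E v y)) := by
        conv_lhs => rw [hMeq]
        rw [List.countP_append, List.countP_cons_of_neg (by simpa using hvb)]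
      have d2 : P.countP (fun u => decide (E u v ∧ ∃ y ∈ M, E v y ∧ E y u)) +
          R.countP (fun u => decide (E u v ∧ ∃ y ∈ M, E v y ∧ E y u)) ≤
          M.countP (fun u => decide (E u v ∧ ∃ y ∈ M, E v y ∧ E y u)) := by
        generalize (fun u => decide (E u v ∧ ∃ y ∈ M, E v y ∧ E y u)) = q
        rw [hMeq, List.countP_append, List.countP_cons]
        omega
      omega

theorem finite_tournament {V : Type u} [Finite V] [Nonempty V] (E : V → V → Prop)
    (hE : Oriented E) (htot : ∀ x y, x ≠ y → E x y ∨ E y x) :
    ∃ v, (outN E v).ncard ≤ (outN2 E v).ncard := by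
  classical
  have := Fintype.ofFinite V
  obtain ⟨L, hL, hF⟩ := exists_feedback E (Finset.univ : Finset V).toList
  have hmem : ∀ x : V, x ∈ L := fun x => hL.mem_iff.2 (by simp)
  have hnd : L.Nodup := hL.nodup_iff.2 (Finset.nodup_toList _)
  have hne : L ≠ [] := by
    obtain ⟨x⟩ := (inferInstance : Nonempty V)
    intro h
    have := hmem x
    rw [h] at this
    simp at this
  obtain ⟨M, v, rfl⟩ : ∃ M v, L = M ++ [v] :=
    ⟨L.dropLast, L.getLast hne, (List.dropLast_append_getLast hne).symm⟩
  have hvM : v ∉ M := by
    intro h
    exact (List.nodup_append.1 hnd).2.2 v h v (by simp) rfl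
  have hndM : M.Nodup := (List.nodup_append.1 hnd).1
  have key := havet_thomasse E hE htot v M.length M le_rfl hvM hndM hF
  refine ⟨v, ?_⟩
  have h1 : (outN E v).ncard = M.countP (fun y => decide (E v y)) := by
    have : outN E v = ((M.filter (fun y => decide (E v y))).toFinset : Set V) := by
      ext w
      simp only [outN, Set.mem_ofPred_eq, List.coe_toFinset, List.mem_filter, decide_eq_true_eq]
      constructor
      · intro h
        refine ⟨?_, h⟩
        have := hmem w
        rcases List.mem_append.1 this with h' | h'
        · exact h'
        · simp only [List.mem_singleton] at h'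
          subst h'
          exact absurd h (hE.1 _)
      · exact fun h => h.2
    rw [this, Set.ncard_coe_finset, List.toFinset_card_of_nodup (hndM.filter _),
      List.countP_eq_length_filter]
  have h2 : M.countP (fun u => decide (E u v ∧ ∃ y ∈ M, E v y ∧ E y u)) ≤ (outN2 E v).ncard := by
    rw [List.countP_eq_length_filter, ← List.toFinset_card_of_nodup (hndM.filter _),
      ← Set.ncard_coe_finset]
    apply Set.ncard_le_ncard _ (Set.toFinite _)
    intro u hu
    simp only [List.coe_toFinset, Set.mem_ofPred_eq, List.mem_filter, decide_eq_true_eq] at hu
    obtain ⟨huM, huv, y, _, hvy, hyu⟩ := hu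
    refine ⟨?_, ?_, y, hvy, hyu⟩
    · intro h
      exact hvM (h ▸ huM)
    · intro h
      exact hE.2 _ _ h huv
  omega

end Pool.Agent.LibSNC53
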